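import Pool.Agent.Helper57.QZ.Stmts

/-! # Row VM2 of the project QZ (MP_818aa8_nt) -/

set_option autoImplicit false

namespace Pool.Agent.Helper57.QZ

open MeasureTheory Set Filter Topology

namespace S61

theorem ci {f : ℝ → ℝ} (hf : Continuous f) : Integrable f circ := by
  unfold circ
  refine Integrable.smul_measure ?_ ?_
  · exact hf.integrableOn_Ioc
  · refine ENNReal.inv_ne_top.2 ?_
    rw [Ne, ENNReal.ofReal_eq_zero, not_le]
    positivity

theorem circ_int (f : ℝ → ℝ) :
    ∫ φ, f φ ∂circ = (2 * Real.pi)⁻¹ * ∫ φ in (0)..(2 * Real.pi), f φ := by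
  unfold circ
  rw [integral_smul_measure, intervalIntegral.integral_of_le (by positivity), smul_eq_mul,
    ENNReal.toReal_inv, ENNReal.toReal_ofReal (by positivity)]

theorem circ_int' (f : ℝ → ℝ) (hf : Function.Periodic f (2 * Real.pi)) :
    ∫ φ, f φ ∂circ = (2 * Real.pi)⁻¹ * ∫ φ in (-Real.pi)..Real.pi, f φ := by
  rw [circ_int]
  have h := hf.intervalIntegral_add_eq 0 (-Real.pi)
  rw [zero_add, show -Real.pi + 2 * Real.pi = Real.pi by ring] at h
  rw [h]

theorem key (x : ℝ) (hx : 0 < x) :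
    ∫ φ, Real.exp (-(x / 2 * (1 - Real.cos φ))) ∂circ ≤
      2 * ∫ φ, Real.exp (-(x * (1 - Real.cos φ))) ∂circ := by
  rw [circ_int' _ (fun φ => by rw [Real.cos_add_two_pi]),
    circ_int' _ (fun φ => by rw [Real.cos_add_two_pi])]
  have hpi := Real.pi_pos
  have h1 : ∫ φ in (-Real.pi)..Real.pi, Real.exp (-(x / 2 * (1 - Real.cos φ))) =
      2 * ∫ ψ in (-(Real.pi / 2))..(Real.pi / 2), Real.exp (-(x * Real.sin ψ ^ 2)) := by
    have h2 := intervalIntegral.integral_comp_mul_left (a := -(Real.pi / 2)) (b := Real.pi / 2)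
      (fun φ => Real.exp (-(x / 2 * (1 - Real.cos φ)))) (two_ne_zero' ℝ)
    rw [show (2 : ℝ) * -(Real.pi / 2) = -Real.pi by ring,
      show (2 : ℝ) * (Real.pi / 2) = Real.pi by ring, smul_eq_mul] at h2
    have h3 : (fun ψ : ℝ => Real.exp (-(x / 2 * (1 - Real.cos (2 * ψ))))) =
        fun ψ => Real.exp (-(x * Real.sin ψ ^ 2)) := by
      funext ψ
      congr 1
      rw [Real.cos_two_mul, Real.sin_sq]
      ring
    rw [h3] at h2
    rw [h2]
    ring
  have h2 : ∫ ψ in (-(Real.pi / 2))..(Real.pi / 2), Real.exp (-(x * Real.sin ψ ^ 2)) ≤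
      ∫ ψ in (-(Real.pi / 2))..(Real.pi / 2), Real.exp (-(x * (1 - Real.cos ψ))) := by
    refine intervalIntegral.integral_mono_on (by linarith)
      (Continuous.intervalIntegrable (by fun_prop) _ _)
      (Continuous.intervalIntegrable (by fun_prop) _ _) ?_
    intro ψ hψ
    refine Real.exp_le_exp.2 (neg_le_neg (mul_le_mul_of_nonneg_left ?_ hx.le))
    have hc : 0 ≤ Real.cos ψ := Real.cos_nonneg_of_neg_pi_div_two_le_of_le hψ.1 hψ.2
    have hc1 := Real.cos_le_one ψ
    rw [Real.sin_sq]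
    nlinarith
  have h3 : ∫ ψ in (-(Real.pi / 2))..(Real.pi / 2), Real.exp (-(x * (1 - Real.cos ψ))) ≤
      ∫ ψ in (-Real.pi)..Real.pi, Real.exp (-(x * (1 - Real.cos ψ))) := by
    refine intervalIntegral.integral_mono_interval (by linarith) (by linarith) (by linarith) ?_
      (Continuous.intervalIntegrable (by fun_prop) _ _)
    exact Filter.Eventually.of_forall fun ψ => (Real.exp_pos _).le
  rw [h1]
  have h4 : 0 < (2 * Real.pi)⁻¹ := by positivity
  have h5 := h2.trans h3
  nlinarith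

theorem ue (u : ℝ) : u * Real.exp (-u) ≤ Real.exp (-1) := by
  have h1 := Real.add_one_le_exp (u - 1)
  have h2 : u ≤ Real.exp (u - 1) := by linarith
  calc u * Real.exp (-u) ≤ Real.exp (u - 1) * Real.exp (-u) :=
        mul_le_mul_of_nonneg_right h2 (Real.exp_pos _).le
    _ = Real.exp (-1) := by rw [← Real.exp_add]; congr 1; ring

theorem e_half : Real.exp (-1) ≤ 3 / 8 := by
  have h := Real.exp_one_gt_d9
  rw [Real.exp_neg, inv_le_comm₀ (Real.exp_pos _) (by norm_num)]
  linarith

end S61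

open S61 in
theorem st_VM2 : ST_VM2 := by
  intro x hx
  set D := ∫ φ, Real.exp (-(x * (1 - Real.cos φ))) ∂circ with hD
  set H := ∫ φ, Real.exp (-(x / 2 * (1 - Real.cos φ))) ∂circ with hH
  set E1 := ∫ φ, (1 - Real.cos φ) * Real.exp (-(x * (1 - Real.cos φ))) ∂circ with hE1
  set E2 := ∫ φ, (1 - Real.cos φ) ^ 2 * Real.exp (-(x * (1 - Real.cos φ))) ∂circ with hE2
  have hHD : H ≤ 2 * D := key x hx
  have hDpos : 0 < D := by
    have h1 : Real.exp (-(2 * x)) ≤ D := by
      have h2 : ∫ _φ, Real.exp (-(2 * x)) ∂circ = Real.exp (-(2 * x)) := by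
        rw [integral_const, probReal_univ, one_smul]
      rw [← h2, hD]
      refine integral_mono (ci (by fun_prop)) (ci (by fun_prop)) fun φ => ?_
      refine Real.exp_le_exp.2 ?_
      have := Real.neg_one_le_cos φ
      nlinarith
    exact lt_of_lt_of_le (Real.exp_pos _) h1
  have hexp : ∀ φ, Real.exp (x * Real.cos φ) =
      Real.exp x * Real.exp (-(x * (1 - Real.cos φ))) := by
    intro φ
    rw [← Real.exp_add]
    congr 1
    ring
  have hI : I0 x = Real.exp x * D := by
    unfold I0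
    rw [hD, ← integral_const_mul]
    exact integral_congr_ae (Filter.Eventually.of_forall hexp)
  have hJ : ∫ φ, Real.cos φ * Real.exp (x * Real.cos φ) ∂circ = Real.exp x * (D - E1) := by
    rw [hD, hE1, ← integral_sub (ci (by fun_prop)) (ci (by fun_prop)), ← integral_const_mul]
    refine integral_congr_ae (Filter.Eventually.of_forall fun φ => ?_)
    beta_reduce
    rw [hexp]
    ring
  have hL : ∫ φ, Real.cos φ ^ 2 * Real.exp (x * Real.cos φ) ∂circ =
      Real.exp x * ((D - 2 * E1) + E2) := by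
    rw [hD, hE1, hE2, ← integral_const_mul 2, ← integral_sub (ci (by fun_prop)) (ci (by fun_prop)),
      ← integral_add (ci (by fun_prop)) (ci (by fun_prop)), ← integral_const_mul]
    refine integral_congr_ae (Filter.Eventually.of_forall fun φ => ?_)
    beta_reduce
    rw [hexp]
    ring
  have hex : Real.exp x ≠ 0 := (Real.exp_pos x).ne'
  have hr : rr x = 1 - E1 / D := by
    unfold rr
    rw [hJ, hI]
    field_simp
  have hv : vv x = E2 / D - (E1 / D) ^ 2 := by
    unfold vv
    rw [hL, hr, hI]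
    field_simp
    ring
  have hb1 : E1 ≤ Real.exp (-1) * (2 / x) * H := by
    rw [hE1, hH, ← integral_const_mul]
    refine integral_mono (ci (by fun_prop)) (ci (by fun_prop)) fun φ => ?_
    beta_reduce
    have h1 := ue (x / 2 * (1 - Real.cos φ))
    have h2 : Real.exp (-(x * (1 - Real.cos φ))) =
        Real.exp (-(x / 2 * (1 - Real.cos φ))) * Real.exp (-(x / 2 * (1 - Real.cos φ))) := by
      rw [← Real.exp_add]; congr 1; ring
    rw [h2]
    calc (1 - Real.cos φ) * (Real.exp (-(x / 2 * (1 - Real.cos φ))) *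
          Real.exp (-(x / 2 * (1 - Real.cos φ))))
        = (x / 2 * (1 - Real.cos φ) * Real.exp (-(x / 2 * (1 - Real.cos φ)))) *
          ((2 / x) * Real.exp (-(x / 2 * (1 - Real.cos φ)))) := by field_simp
      _ ≤ Real.exp (-1) * ((2 / x) * Real.exp (-(x / 2 * (1 - Real.cos φ)))) :=
          mul_le_mul_of_nonneg_right h1 (by positivity)
      _ = _ := by ring
  have hb2 : E2 ≤ Real.exp (-1) ^ 2 * (16 / x ^ 2) * H := by
    rw [hE2, hH, ← integral_const_mul]
    refine integral_mono (ci (by fun_prop)) (ci (by fun_prop)) fun φ => ?_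
    beta_reduce
    have hc := Real.cos_le_one φ
    have h1 := ue (x / 4 * (1 - Real.cos φ))
    have h0 : 0 ≤ x / 4 * (1 - Real.cos φ) * Real.exp (-(x / 4 * (1 - Real.cos φ))) :=
      mul_nonneg (mul_nonneg (by positivity) (by linarith)) (Real.exp_pos _).le
    have h3 : (x / 4 * (1 - Real.cos φ) * Real.exp (-(x / 4 * (1 - Real.cos φ)))) ^ 2 ≤
        Real.exp (-1) ^ 2 := pow_le_pow_left₀ h0 h1 2
    have h2 : Real.exp (-(x * (1 - Real.cos φ))) =
        Real.exp (-(x / 4 * (1 - Real.cos φ))) ^ 2 *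
          Real.exp (-(x / 2 * (1 - Real.cos φ))) := by
      rw [← Real.exp_nat_mul, ← Real.exp_add]; congr 1; push_cast; ring
    rw [h2]
    calc (1 - Real.cos φ) ^ 2 * (Real.exp (-(x / 4 * (1 - Real.cos φ))) ^ 2 *
          Real.exp (-(x / 2 * (1 - Real.cos φ))))
        = (x / 4 * (1 - Real.cos φ) * Real.exp (-(x / 4 * (1 - Real.cos φ)))) ^ 2 *
          ((16 / x ^ 2) * Real.exp (-(x / 2 * (1 - Real.cos φ)))) := by field_simp; ring
      _ ≤ Real.exp (-1) ^ 2 * ((16 / x ^ 2) * Real.exp (-(x / 2 * (1 - Real.cos φ)))) :=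
          mul_le_mul_of_nonneg_right h3 (by positivity)
      _ = _ := by ring
  have he := e_half
  have he0 := Real.exp_pos (-1)
  have he2 : Real.exp (-1) ^ 2 ≤ 9 / 64 := by nlinarith
  constructor
  · rw [hr, sub_sub_cancel, div_le_iff₀ hDpos]
    calc E1 ≤ Real.exp (-1) * (2 / x) * H := hb1
      _ ≤ Real.exp (-1) * (2 / x) * (2 * D) := mul_le_mul_of_nonneg_left hHD (by positivity)
      _ = Real.exp (-1) * (4 / x * D) := by ring
      _ ≤ 3 / 8 * (4 / x * D) := mul_le_mul_of_nonneg_right he (by positivity)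
      _ = 3 / 2 * (D / x) := by ring
      _ ≤ 2 * (D / x) := by
          have : 0 < D / x := by positivity
          linarith
      _ = 2 / x * D := by ring
  · rw [hv]
    have h1 : E2 / D ≤ 5 / x ^ 2 := by
      rw [div_le_iff₀ hDpos]
      calc E2 ≤ Real.exp (-1) ^ 2 * (16 / x ^ 2) * H := hb2
        _ ≤ Real.exp (-1) ^ 2 * (16 / x ^ 2) * (2 * D) :=
            mul_le_mul_of_nonneg_left hHD (by positivity)
        _ = Real.exp (-1) ^ 2 * (32 / x ^ 2 * D) := by ring
        _ ≤ 9 / 64 * (32 / x ^ 2 * D) := mul_le_mul_of_nonneg_right he2 (by positivity)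
        _ = 9 / 2 * (D / x ^ 2) := by ring
        _ ≤ 5 * (D / x ^ 2) := by
            have : 0 < D / x ^ 2 := by positivity
            linarith
        _ = 5 / x ^ 2 * D := by ring
    nlinarith [sq_nonneg (E1 / D)]

end Pool.Agent.Helper57.QZ
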